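import Pool.Agent.Helper72.D5.Small

/-!
Row A5 of the sheet D5 (MP_fcb106_co, version 5): the case of two smaller graphs.
-/

set_option autoImplicit false

namespace Pool.Agent.Helper72.D5

open Finset Pool.Agent.Helper33.DP Pool.Agent.Helper63.D4 Pool.Agent.Helper26.D5

/-- **A5**, the case of two smaller graphs. -/
theorem A5 (hT1 : ST_T1F) (hBFS : ST_BFS) (hLW : ST_LW) (hWG : ST_WG) (hPS4 : ST_PS4)
    (hPS5 : ST_PS5) : ST_A5 := by
  classical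
  intro w G G₁ G₂ μ hw hG h1 h2 hc hgood hlt1 hlt2
  have hμ1 := GB5 hPS5 w G μ hw hG hgood
  obtain ⟨h0, R, C, F, hR, hC, hF, hbdd⟩ := hgood
  have hw1 : (1 : ℝ) ≤ w := by exact_mod_cast hw
  have hw0 : (0 : ℝ) < w := by linarith
  obtain ⟨g, hg⟩ : ∃ g : ℝ, g = g5 w G.card := ⟨_, rfl⟩
  rw [← hg] at hbdd
  have hiw : 1 / (w : ℝ) ≤ 1 := by
    rw [div_le_one hw0]; exact hw1
  have hiw0 : 0 < 1 / (w : ℝ) := by positivity
  have hg8 : 8 ≤ g := by
    have a1 := e0_nonneg w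
    have a2 : (0 : ℝ) ≤ (G.card : ℝ) / w := by positivity
    rw [hg]
    unfold g5
    linarith
  have num : ∀ m : ℕ, m < G.card → 1 / (g - 1 / w) ≤ 1 / g5 w m := by
    intro m hmG
    refine one_div_le_one_div_of_le (g5_pos hw) ?_
    have a1 : (m : ℝ) + 1 ≤ G.card := by exact_mod_cast hmG
    have a2 : ((m : ℝ) + 1) / w ≤ (G.card : ℝ) / w := div_le_div_of_nonneg_right a1 hw0.le
    rw [add_div] at a2
    rw [hg]
    unfold g5
    linarith
  have hββ : 1 / g < 1 / (g - 1 / w) := one_div_lt_one_div_of_lt (by linarith) (by linarith)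
  obtain ⟨hW1, hW2⟩ := hWG w G G₁ G₂ hG h1 h2 (by rw [hc])
  obtain ⟨l10, l11, l12, l13⟩ := LAM w G G₁ hw hlt1.le hW1
  obtain ⟨-, l21, l22, l23⟩ := LAM w G G₂ hw hlt2.le hW2
  obtain ⟨z, R₁, C₁, F₁, R₂, C₂, F₂, hz0, hzs, hzsum, hR1, hC1, hF1, hR2, hC2, hF2, hz1, hz2⟩ :=
    hT1 w G G₁ G₂ (fun a b => (μ a b : ℝ)) R C F (1 / g) (1 / (g - 1 / w)) (e0 w) (lamG G) hw h1
      h2 (by rw [hc]) (fun a b hab => by
        have := hμ1 a b hab
        exact_mod_cast this) hR hC hF (fun F' hF' => hPS5 w G F' hw hG hF') hbdd hββ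
  obtain ⟨n, hn⟩ : ∃ n : Fin w → Fin w → ℕ, ∀ a b, n a b =
      if (a, b) ∈ comp G₁ G₂ then μ a b else 0 := ⟨_, fun _ _ => rfl⟩
  have hzn : ∀ a b, ∑ x, z a x b = n a b := by
    intro a b
    rw [hn]
    split_ifs with hab
    · exact hzsum a b hab
    · rw [Nat.cast_zero]
      refine sum_eq_zero fun x _ => hzs a x b fun hx => hab ?_
      unfold comp
      rw [mem_filter]
      exact ⟨mem_univ _, x, hx⟩
  -- the rounding, with the functional of the favoured child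
  obtain ⟨z', hsum', hsupp', he1, he2, hfun⟩ : ∃ z' : Fin w → Fin w → Fin w → ℕ,
      (∀ a b, ∑ x, z' a x b = n a b) ∧ (∀ a x b, z a x b = 0 → z' a x b = 0) ∧
      (∀ a x, |∑ b, (z' a x b : ℝ) - ∑ b, z a x b| ≤ 4) ∧
      (∀ x b, |∑ a, (z' a x b : ℝ) - ∑ a, z a x b| ≤ 4) ∧
      ((WW G₁ ≤ WW G - 1 / 50 ∧ ∑ x, ∑ b, Real.sinh (F₂ x b / (4 * w)) *
        (∑ a, z a x b - ∑ a, (z' a x b : ℝ)) ≤ 0) ∨
      (WW G₂ ≤ WW G - 1 / 50 ∧ ∑ a, ∑ x, Real.sinh (F₁ a x / (4 * w)) *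
        (∑ b, z a x b - ∑ b, (z' a x b : ℝ)) ≤ 0)) := by
    rcases hLW w G G₁ G₂ hG h1 h2 hc hlt1 hlt2 with h | h
    · obtain ⟨z', hs, hp, he1, he2, hf⟩ := hBFS w z n
        (fun _ x b => Real.sinh (F₂ x b / (4 * w))) hz0 hzn
      refine ⟨z', hs, hp, he1, he2, Or.inl ⟨h, ?_⟩⟩
      refine le_trans (le_of_eq ?_) hf
      have e1 : ∑ a : Fin w, ∑ x, ∑ b, Real.sinh (F₂ x b / (4 * w)) *
          (z a x b - (z' a x b : ℝ)) = ∑ x, ∑ a : Fin w, ∑ b, Real.sinh (F₂ x b / (4 * w)) *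
          (z a x b - (z' a x b : ℝ)) := sum_comm
      rw [e1]
      refine sum_congr rfl fun x _ => ?_
      rw [sum_comm]
      refine sum_congr rfl fun b _ => ?_
      rw [← mul_sum, sum_sub_distrib]
    · obtain ⟨z', hs, hp, he1, he2, hf⟩ := hBFS w z n
        (fun a x _ => Real.sinh (F₁ a x / (4 * w))) hz0 hzn
      refine ⟨z', hs, hp, he1, he2, Or.inr ⟨h, ?_⟩⟩
      refine le_trans (le_of_eq ?_) hf
      refine sum_congr rfl fun a _ => ?_
      refine sum_congr rfl fun x _ => ?_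
      rw [← mul_sum, sum_sub_distrib]
  have hroute : Route G₁ G₂ μ z' := by
    refine ⟨fun a x b hne => ?_, fun a b hab => ?_⟩
    · by_contra hx
      exact hne (hsupp' a x b (hzs a x b hx))
    · rw [hsum' a b, hn, if_pos hab]
  have hd1 : ∀ a x, |∑ b, z a x b - ∑ b, (z' a x b : ℝ)| ≤ 4 := fun a x => by
    rw [abs_sub_comm]; exact he1 a x
  have hd2 : ∀ x b, |∑ a, z a x b - ∑ a, (z' a x b : ℝ)| ≤ 4 := fun x b => by
    rw [abs_sub_comm]; exact he2 x b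
  obtain ⟨p11, p12⟩ := hPS4 w F₁ (fun a x => ∑ b, z a x b - ∑ b, (z' a x b : ℝ)) hw hd1
  obtain ⟨p21, p22⟩ := hPS4 w F₂ (fun x b => ∑ a, z a x b - ∑ a, (z' a x b : ℝ)) hw hd2
  have hPsi : Psi (fun a x => F₁ a x + (∑ b, z a x b - ∑ b, (z' a x b : ℝ))) ≤ lamG G₁ ∧
      Psi (fun x b => F₂ x b + (∑ a, z a x b - ∑ a, (z' a x b : ℝ))) ≤ lamG G₂ := by
    rcases hfun with ⟨hW, hf⟩ | ⟨hW, hf⟩
    · refine ⟨p11.trans (le_trans ?_ (l13 hW)), (p22 hf).trans (le_trans ?_ (l22 hlt2))⟩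
      · exact mul_le_mul_of_nonneg_left hF1 (Real.exp_pos _).le
      · exact mul_le_mul_of_nonneg_left hF2 (Real.exp_pos _).le
    · refine ⟨(p12 hf).trans (le_trans ?_ (l12 hlt1)), p21.trans (le_trans ?_ (l23 hW))⟩
      · exact mul_le_mul_of_nonneg_left hF1 (Real.exp_pos _).le
      · exact mul_le_mul_of_nonneg_left hF2 (Real.exp_pos _).le
  refine ⟨z', hroute, ⟨?_, R₁, C₁, _, hR1, hC1, hPsi.1, ?_⟩, ⟨?_, R₂, C₂, _, hR2, hC2, hPsi.2, ?_⟩⟩
  · intro a x hax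
    refine sum_eq_zero fun b _ => ?_
    by_contra hne
    exact hax (hroute.supp a x b hne).1
  · have e : (fun a x => ((∑ b, z' a x b : ℕ) : ℝ) + R₁ a x + C₁ a x +
        (e0 w + (F₁ a x + (∑ b, z a x b - ∑ b, (z' a x b : ℝ))))) =
        fun a x => ∑ b, z a x b + R₁ a x + C₁ a x + (e0 w + F₁ a x) := by
      funext a x
      push_cast
      ring
    rw [e]
    exact ⟨hz1.pos, fun σ hσ => (hz1.le σ hσ).trans (num G₁.card hlt1)⟩
  · intro x b hxb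
    refine sum_eq_zero fun a _ => ?_
    by_contra hne
    exact hxb (hroute.supp a x b hne).2
  · have e : (fun x b => ((∑ a, z' a x b : ℕ) : ℝ) + R₂ x b + C₂ x b +
        (e0 w + (F₂ x b + (∑ a, z a x b - ∑ a, (z' a x b : ℝ))))) =
        fun x b => ∑ a, z a x b + R₂ x b + C₂ x b + (e0 w + F₂ x b) := by
      funext x b
      push_cast
      ring
    rw [e]
    exact ⟨hz2.pos, fun σ hσ => (hz2.le σ hσ).trans (num G₂.card hlt2)⟩

end Pool.Agent.Helper72.D5
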