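import Pool.Agent.Helper72.D4.All4
import Pool.Agent.Helper72.D5.A5
import Pool.Agent.Helper2.D5.W
import Pool.Agent.Helper26.D5.WG
import Pool.Agent.Helper26.D5.MB5
import Pool.Agent.Helper26.D5.BC5
import Pool.Agent.Helper78.D5.BFS
import Pool.Agent.Helper78.D5.WT
import Pool.Agent.Helper78.D5.BT5
import Pool.Agent.Helper63.D5.T1F
import Pool.Agent.Helper85.D5.PS

/-! Assembly of the rows of the sheet D5 (MP_fcb106_co). -/

set_option autoImplicit false

namespace Pool.Agent.Helper72.D5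

open Finset Pool.Agent.Helper33.DP Pool.Agent.Helper63.D4 Pool.Agent.Helper26.D5
open Pool.Agent.Helper33.PL (partB split str bgp bdr)
open Pool.Agent.Helper72.D4 (all_BL all_PEX4)

theorem all_WM : ST_WM := Pool.Agent.Helper2.D5.st_WM

theorem all_WB : ST_WB := Pool.Agent.Helper2.D5.st_WB

theorem all_PS5 : ST_PS5 := Pool.Agent.Helper85.D5.PS5 all_WB

theorem all_WG : ST_WG := Pool.Agent.Helper26.D5.WG all_WM

theorem all_LW : ST_LW :=
  Pool.Agent.Helper26.D5.LW Pool.Agent.Helper2.D5.st_W1 Pool.Agent.Helper2.D5.st_WD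
    Pool.Agent.Helper2.D5.st_LX

theorem all_GB5 : ST_GB5 := GB5 all_PS5

theorem all_RES : ST_RES := RES all_WM

theorem all_T1F : ST_T1F :=
  Pool.Agent.Helper63.D5.T1F Pool.Agent.Helper26.PL.ML Pool.Agent.Helper59.PL.DS1
    Pool.Agent.Helper85.PL.DS2 Pool.Agent.Helper85.PL.DS3 Pool.Agent.Helper85.PL.DS4
    Pool.Agent.Helper85.D4.CL1 Pool.Agent.Helper85.D4.CL2 Pool.Agent.Helper85.D5.PS1
    Pool.Agent.Helper85.D5.PS3

theorem all_A5 : ST_A5 :=
  A5 all_T1F Pool.Agent.Helper78.D5.BFS all_LW all_WG Pool.Agent.Helper85.D5.PS4 all_PS5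

theorem all_MB5 : ST_MB5 :=
  Pool.Agent.Helper26.D5.MB5 Pool.Agent.Helper85.D4.LR4 Pool.Agent.Helper85.D4.CL1
    Pool.Agent.Helper85.D4.CL2 Pool.Agent.Helper85.D4.CL3 Pool.Agent.Helper85.D4.CL4 bgp
    Pool.Agent.Helper85.D5.PS1 Pool.Agent.Helper85.D5.PS2

theorem all_B5 : ST_B5 :=
  Pool.Agent.Helper26.D5.B5 str all_BL all_PEX4 all_PS5 all_WG LAM all_MB5 all_GB5

theorem all_C5 : ST_C5 :=
  Pool.Agent.Helper26.D5.C5 str all_BL all_PS5 all_WG LAM all_MB5 all_GB5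

theorem all_S5 : ST_S5 :=
  S5 str Pool.Agent.Helper26.D5.CK all_RES all_GB5 all_A5 all_B5
    (Pool.Agent.Helper78.D5.BT5 all_B5) all_C5 START5

/-- The second polynomial upper bound. -/
theorem all_FINAL5 : ST_FINAL5 := FINAL5 all_S5 split partB

end Pool.Agent.Helper72.D5
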