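import Pool.Agent.Helper26.D5.Sheet
import Pool.Agent.Helper72.D4.GB4
import Pool.Agent.Helper72.PL.FINAL

/-!
Rows LAM, GB5, RES, START5, S5, FINAL5 of the sheet D5 (MP_fcb106_co, version 5).
-/

set_option autoImplicit false

namespace Pool.Agent.Helper72.D5

open Finset Pool.Agent.Helper33.DP Pool.Agent.Helper63.D4 Pool.Agent.Helper26.D5
open Pool.Agent.Helper72.D4 (cl_entry cl_zero bdd_entry)

theorem LL_pos (w : ℕ) : 1 ≤ LL w := by
  unfold LL
  omega

theorem e0_nonneg (w : ℕ) : 0 ≤ e0 w := by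
  unfold e0
  positivity

theorem g5_pos {w m : ℕ} (hw : 1 ≤ w) : 0 < g5 w m := by
  have h1 : (1 : ℝ) ≤ w := by exact_mod_cast hw
  have h2 := e0_nonneg w
  have h3 : (0 : ℝ) ≤ (m : ℝ) / w := by positivity
  unfold g5
  linarith

theorem g5_mono {w m m' : ℕ} (h : m' ≤ m) : g5 w m' ≤ g5 w m := by
  unfold g5
  have h1 : (m' : ℝ) / w ≤ (m : ℝ) / w :=
    div_le_div_of_nonneg_right (by exact_mod_cast h) (by positivity)
  linarith

/-- **LAM** -/
theorem LAM : ST_LAM := by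
  intro w G G' hw hc hW
  have hw0 : (0 : ℝ) < w := by exact_mod_cast hw
  have hw2 : (0 : ℝ) < (w : ℝ) ^ 2 := by positivity
  have hc' : (G'.card : ℝ) ≤ G.card := by exact_mod_cast hc
  have h50 : (0 : ℝ) ≤ 50 / w := by positivity
  have k1 : (G'.card : ℝ) / w ^ 2 ≤ (G.card : ℝ) / w ^ 2 :=
    div_le_div_of_nonneg_right hc' hw2.le
  have k2 : 50 / (w : ℝ) * (WW (univ : Gr w) - WW G) ≤ 50 / w * (WW (univ : Gr w) - WW G') :=
    mul_le_mul_of_nonneg_left (by linarith) h50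
  refine ⟨?_, ?_, fun h => ?_, fun h => ?_⟩
  · unfold lamG
    positivity
  · unfold lamG
    refine mul_le_mul_of_nonneg_left (Real.exp_le_exp.2 ?_) hw2.le
    linarith
  · unfold lamG
    rw [mul_left_comm, ← Real.exp_add]
    refine mul_le_mul_of_nonneg_left (Real.exp_le_exp.2 ?_) hw2.le
    have h1 : (G'.card : ℝ) + 1 ≤ G.card := by exact_mod_cast h
    have h2 : ((G'.card : ℝ) + 1) / w ^ 2 ≤ (G.card : ℝ) / w ^ 2 :=
      div_le_div_of_nonneg_right h1 hw2.le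
    rw [add_div] at h2
    have h3 : (11 : ℝ) / 8 / (w : ℝ) ^ 2 = 11 / 8 * (1 / (w : ℝ) ^ 2) := by ring
    rw [h3]
    linarith
  · unfold lamG
    rw [mul_left_comm, ← Real.exp_add]
    refine mul_le_mul_of_nonneg_left (Real.exp_le_exp.2 ?_) hw2.le
    have h1 : 50 / (w : ℝ) * (WW (univ : Gr w) - WW G + 1 / 50) ≤
        50 / w * (WW (univ : Gr w) - WW G') :=
      mul_le_mul_of_nonneg_left (by linarith) h50
    have h2 : 50 / (w : ℝ) * (WW (univ : Gr w) - WW G + 1 / 50) =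
        50 / w * (WW (univ : Gr w) - WW G) + 1 / w := by
      ring
    linarith

/-- **GB5** -/
theorem GB5 (hPS5 : ST_PS5) : ST_GB5 := by
  intro w G μ hw hG hμ a b hab
  obtain ⟨h0, R, C, F, hR, hC, hF, hB⟩ := hμ
  have h1 := bdd_entry hG (g5_pos hw) hB hab
  have h2 := cl_entry (hR a) b
  have h3 : C a b ≤ 4 * w - 2 := cl_entry (hC b) a
  have h4 := (abs_le.1 (hPS5 w G F hw hG hF a b)).2
  have h5 : (0 : ℝ) < μ a b := by
    unfold g5 at h1
    have : (0 : ℝ) ≤ (G.card : ℝ) / w := by positivity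
    linarith
  have h6 : 0 < μ a b := by exact_mod_cast h5
  exact h6

/-- **RES** -/
theorem RES (hWM : ST_WM) : ST_RES := by
  intro w G G' μ hw hG hG' hsub hμ
  obtain ⟨h0, R, C, F, hR, hC, hF, hB⟩ := hμ
  have hcard : G'.card ≤ G.card := card_le_card hsub
  refine ⟨fun a b hab => if_neg hab, R, C, F, hR, hC, ?_, ?_⟩
  · exact hF.trans (LAM w G G' hw hcard (hWM w G G' hG hG' hsub)).2.1
  · refine ⟨fun a b hab => ?_, fun σ hσ => ?_⟩
    · simp only [if_pos hab]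
      exact hB.pos a b (hsub hab)
    · have h1 := hB.le σ fun i => hsub (hσ i)
      have h2 : 1 / g5 w G.card ≤ 1 / g5 w G'.card :=
        one_div_le_one_div_of_le (g5_pos hw) (g5_mono hcard)
      refine le_trans (le_of_eq ?_) (h1.trans h2)
      refine sum_congr rfl fun i _ => ?_
      have h3 : (i, σ i) ∈ G' := hσ i
      simp only [if_pos h3]

/-- **START5** -/
theorem START5 : ST_START5 := by
  intro w hw
  have hw0 : (0 : ℝ) < w := by exact_mod_cast hw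
  have hL : (1 : ℝ) ≤ (LL w : ℝ) := by exact_mod_cast LL_pos w
  have hcard : (univ : Gr w).card = w ^ 2 := by
    rw [card_univ, Fintype.card_prod, Fintype.card_fin]; ring
  refine ⟨fun a b h => absurd (mem_univ _) h, fun _ _ => 0, fun _ _ => 0, fun _ _ => 0,
    fun _ => cl_zero, fun _ => cl_zero, ?_, ⟨fun a b _ => ?_, fun σ _ => ?_⟩⟩
  · have h1 : Psi (fun _ _ : Fin w => (0 : ℝ)) = (w : ℝ) ^ 2 := by
      unfold Psi
      simp only [zero_div, Real.cosh_zero, sum_const, card_univ, Fintype.card_fin, nsmul_eq_mul,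
        mul_one]
      ring
    have h2 : lamG (univ : Gr w) = (w : ℝ) ^ 2 := by
      unfold lamG
      rw [hcard]
      push_cast
      rw [div_self (by positivity), sub_self, sub_self, mul_zero, mul_zero, add_zero,
        Real.exp_zero, mul_one]
    rw [h1, h2]
  · have := e0_nonneg w
    push_cast
    positivity
  · rw [hcard]
    simp only [sum_const, card_univ, Fintype.card_fin, nsmul_eq_mul, add_zero]
    have hg := g5_pos (m := w ^ 2) hw
    have he : e0 w = 492 * w * (LL w : ℝ) := rfl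
    have hpos : (0 : ℝ) < ((993 * w ^ 2 * LL w : ℕ) : ℝ) + e0 w := by
      rw [he]
      push_cast
      positivity
    rw [← div_eq_mul_inv, div_le_div_iff₀ hpos hg, one_mul]
    unfold g5
    rw [he]
    push_cast
    have h1 : (w : ℝ) * (8 * w + 2 * (492 * w * (LL w : ℝ)) + (w : ℝ) ^ 2 / w) =
        9 * (w : ℝ) ^ 2 + 984 * (w : ℝ) ^ 2 * (LL w : ℝ) := by
      field_simp
      ring
    rw [h1]
    have h2 : 9 * (w : ℝ) ^ 2 * 1 ≤ 9 * (w : ℝ) ^ 2 * (LL w : ℝ) :=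
      mul_le_mul_of_nonneg_left hL (by positivity)
    have h3 : 0 ≤ 492 * (w : ℝ) * (LL w : ℝ) := by positivity
    nlinarith

/-- **S5** -/
theorem S5 (hSTR : ST_STR) (hCK : ST_CK) (hRES : ST_RES) (hGB : ST_GB5) (hA : ST_A5) (hB : ST_B5)
    (hBT : ST_BT5) (hC : ST_C5) (hSt : ST_START5) : ST_S5 := by
  intro w hw
  refine ⟨fun G μ => Good5 G μ, ⟨⟨993 * w ^ 2 * LL w, by ring, hSt w hw⟩, ?_, ?_⟩⟩
  · intro G μ hG hμ a b hab
    exact hGB w G μ hw hG hμ a b hab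
  · intro G G₁ G₂ μ hG hG₁ hG₂ hc hμ
    have hH : IsCore (comp G₁ G₂) := hCK w G₁ G₂ hG₁ hG₂
    have hμ' := hRES w G (comp G₁ G₂) μ hw hG hH hc hμ
    obtain ⟨⟨h1, -⟩, ⟨h2, -⟩⟩ := hSTR w (comp G₁ G₂) G₁ G₂ hG₁ hG₂ (Subset.refl _)
    have key : StepC5 G₁ G₂ (fun a b => if (a, b) ∈ comp G₁ G₂ then μ a b else 0) := by
      rcases h1.lt_or_eq with h1 | h1 <;> rcases h2.lt_or_eq with h2 | h2
      · exact hA w _ G₁ G₂ _ hw hH hG₁ hG₂ rfl hμ' h1 h2
      · exact hBT w _ G₁ G₂ _ hw hH hG₁ hG₂ rfl hμ' h1 h2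
      · exact hB w _ G₁ G₂ _ hw hH hG₁ hG₂ rfl hμ' h1 h2
      · exact hC w _ G₁ G₂ _ hw hH hG₁ hG₂ rfl hμ' h1 h2
    obtain ⟨z, hz, hz1, hz2⟩ := key
    refine ⟨z, ⟨hz.supp, fun a b hab => ?_⟩, hz1, hz2⟩
    rw [hz.sum a b hab, if_pos hab]

theorem LL_mono {v w : ℕ} (h : v ≤ w) : LL v ≤ LL w := by
  unfold LL
  exact Nat.succ_le_succ (Nat.log_mono_right h)

theorem sum_le5 (w : ℕ) : ∑ v ∈ range w, 993 * (v + 1) ^ 4 ≤ (199 * w + 828) * w ^ 4 := by
  induction w with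
  | zero => simp
  | succ w ih =>
    rw [sum_range_succ]
    have e : (199 * (w + 1) + 828) * (w + 1) ^ 4 = (199 * w + 828) * w ^ 4 +
        993 * (w + 1) ^ 4 + (2 * w ^ 4 + 1330 * w ^ 3 + 1000 * w ^ 2 + 335 * w + 34) := by ring
    rw [e]
    omega

/-- **FINAL5** -/
theorem FINAL5 (hS : ST_S5) (hSPLIT : ST_SPLIT) (hPARTB : ST_PARTB) : ST_FINAL5 := fun w _ =>
  Pool.Agent.Helper72.PL.suffices_of hSPLIT hPARTB (fun w => 993 * w ^ 4 * LL w) hS w _ (by
    calc ∑ v ∈ range w, 993 * (v + 1) ^ 4 * LL (v + 1)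
        ≤ ∑ v ∈ range w, 993 * (v + 1) ^ 4 * LL w :=
          sum_le_sum fun v hv => Nat.mul_le_mul le_rfl (LL_mono (mem_range.1 hv))
      _ = (∑ v ∈ range w, 993 * (v + 1) ^ 4) * LL w := by rw [sum_mul]
      _ ≤ (199 * w + 828) * w ^ 4 * LL w := Nat.mul_le_mul (sum_le5 w) le_rfl)

end Pool.Agent.Helper72.D5
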